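import Pool.Agent.H14.OVO.Core2
import Pool.Agent.H41.OVO.Defs

/-!
# ABS1 in the one-space interface
-/

set_option autoImplicit false
set_option linter.unusedSectionVars false

namespace Pool.OVE

open Finset Function

section tables

variable {F : Type} [Field F] [CharP F 2]

theorem J14_none (l i : Fin 4) : OVO14.J F none l i = J 0 l i := by
  rw [OVO14.J_none]
  simp [J, Matrix.one_apply]

theorem J14_some (a l i : Fin 4) : OVO14.J F (some a) l i = J a.succ l i := by
  unfold OVO14.J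
  fin_cases a <;> fin_cases l <;> fin_cases i <;> simp [OVO14.jb, J]

theorem gam14 (c b b' : Fin 4) : OVO14.gam F c b b' = gam (Pi.single c 1) b b' := by
  rw [OVO14.gam_eq]
  fin_cases c <;> fin_cases b <;> fin_cases b' <;> simp [gam]

end tables

end Pool.OVE

namespace Pool.OVE14

open Finset Function Pool.OVE

section bf

variable {F : Type} [Field F] {h : ℕ} [NeZero h]

/-- The form on `E` as a bilinear form. -/
def bfL : LinearMap.BilinForm F (E F h) :=
  LinearMap.mk₂ F bf (fun φ φ' ψ => by simp [bf, add_mul, Finset.sum_add_distrib])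
    (fun c φ ψ => by simp [bf, Finset.mul_sum, mul_assoc])
    (fun φ ψ ψ' => by simp [bf, mul_add, Finset.sum_add_distrib])
    (fun c φ ψ => by simp [bf, Finset.mul_sum, mul_left_comm])

theorem bfL_apply (φ ψ : E F h) : bfL φ ψ = bf φ ψ := rfl

theorem bf_comm (φ ψ : E F h) : bf φ ψ = bf ψ φ := by
  unfold bf
  rw [← Equiv.sum_comp (wbrE : W h ≃ W h)]
  refine Finset.sum_congr rfl fun w _ => ?_
  rw [wbrE_apply, wbr_wbr, mul_comm]

theorem bf_single (φ : E F h) (w : W h) : bf φ (Pi.single (wbr w) 1) = φ w := by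
  classical
  unfold bf
  rw [Finset.sum_eq_single w]
  · rw [Pi.single_eq_same, mul_one]
  · intro w' _ hw
    rw [Pi.single_eq_of_ne, mul_zero]
    intro h1
    exact hw (by rw [← wbr_wbr w', h1, wbr_wbr])
  · intro h1; exact absurd (Finset.mem_univ _) h1

theorem bfL_nondeg : (bfL : LinearMap.BilinForm F (E F h)).Nondegenerate := by
  have key : ∀ φ : E F h, (∀ ψ, bf φ ψ = 0) → φ = 0 := by
    intro φ hφ
    funext w
    rw [← bf_single φ w]
    exact hφ _
  refine ⟨fun φ hφ => key φ hφ, fun φ hφ => key φ fun ψ => ?_⟩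
  rw [bf_comm]
  exact hφ ψ

end bf

end Pool.OVE14

namespace Pool.OVE

open Finset Function

section abs1

variable {F : Type} [Field F] [CharP F 2] {M : Type*} [AddCommGroup M] [Module F M]
  [FiniteDimensional F M]

/-- The sum of the images of the slot operators. -/
def imB (C : Fin 4 → Fin 4 → Module.End F M) : Submodule F M :=
  ⨆ b, ⨆ i, LinearMap.range (C b i)

/-- **ABS1** for any finite-dimensional space with a nondegenerate symmetric form. -/
theorem abs1_gen (Bf : LinearMap.BilinForm F M) (hB : Bf.Nondegenerate)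
    (hs : ∀ x y, Bf x y = Bf y x) (C : Fin 4 → Fin 4 → Module.End F M)
    (G Gs : Fin 5 → Fin 4 → Module.End F M)
    (hC : ∀ b i x y, Bf (C b i x) y = Bf x (C b i y))
    (hG : ∀ a c x y, Bf (G a c x) y = Bf x (Gs a c y))
    (hL : ∀ c b i : Fin 4, ∑ a : Fin 5, G a c * (∑ l, J (F := F) a l i • C b l) =
      ∑ b', gam (F := F) (Pi.single c 1) b b' • C b' i) :
    ∃ N : Fin 4 → Fin 4 → Module.End F M,
      (∀ a c, ∀ β ∈ imB C, G a c β ∈ imB C) ∧
      (∀ a c, ∀ β ∈ imB C, N a c β ∈ imB C) ∧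
      (∀ c c', ∀ β ∈ imB C, ∑ a : Fin 4, G a.succ c (N a c' β) = if c = c' then β else 0) ∧
      (∀ a a', ∀ β ∈ imB C, ∑ c, N a c (G a'.succ c β) = if a = a' then β else 0) ∧
      (∀ (a : Fin 4) (c : Fin 4) (a' : Fin 5) (c' : Fin 4), ∀ β ∈ imB C,
        G a.succ c (G a' c' β) = G a' c' (G a.succ c β)) ∧
      (∀ (a : Fin 5) (c : Fin 4) (a' : Fin 4) (c' : Fin 4), ∀ β ∈ imB C,
        G a c (N a' c' β) = N a' c' (G a c β)) ∧
      (∀ a c a' c', ∀ β ∈ imB C, N a c (N a' c' β) = N a' c' (N a c β)) ∧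
      (∀ X X' : Module.End F M, (∀ b i m, X (C b i m) = C b i (X' m)) →
        (∀ (a : Fin 5) (c : Fin 4), ∀ β ∈ imB C, X (G a c β) = G a c (X β)) ∧
        ∀ a c, ∀ β ∈ imB C, X (N a c β) = N a c (X β)) := by
  classical
  let G' : Option (Fin 4) → Fin 4 → Module.End F M := fun a c => a.elim (G 0 c) (fun a => G a.succ c)
  let Gs' : Option (Fin 4) → Fin 4 → Module.End F M :=
    fun a c => a.elim (Gs 0 c) (fun a => Gs a.succ c)
  have hL' : OVO14.RelL C G' := by
    intro c b i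
    rw [Fintype.sum_option]
    have h1 := hL c b i
    rw [Fin.sum_univ_succ] at h1
    simp only [J14_none, J14_some, gam14]
    exact h1
  have hG' : ∀ a c x y, Bf (G' a c x) y = Bf x (Gs' a c y) := by
    intro a c x y
    cases a with
    | none => exact hG 0 c x y
    | some a => exact hG a.succ c x y
  obtain ⟨hst, N, h1, h2, h3, h4, h5, h6⟩ := OVO14.core1 Bf hB hs hC hG' hL'
  have hext : ∀ a c, ∃ N' : Module.End F M, ∀ β : OVO14.BB C, N' β = (N a c β : OVO14.BB C) := by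
    intro a c
    obtain ⟨g, hg⟩ := LinearMap.exists_extend ((OVO14.BB C).subtype.comp (N a c))
    exact ⟨g, fun β => LinearMap.congr_fun hg β⟩
  choose N' hN' using hext
  have hBB : imB C = OVO14.BB C := rfl
  have gb : ∀ (a : Option (Fin 4)) (c : Fin 4) (β : OVO14.BB C),
      ((OVO14.GB G' hst a c β : OVO14.BB C) : M) = G' a c β := fun _ _ _ => rfl
  refine ⟨N', ?_, ?_, ?_, ?_, ?_, ?_, ?_, ?_⟩
  · intro a c β hβ
    cases a using Fin.cases with
    | zero => exact hst none c β hβ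
    | succ a => exact hst (some a) c β hβ
  · intro a c β hβ
    rw [hBB] at hβ ⊢
    have := hN' a c ⟨β, hβ⟩
    rw [show N' a c β = _ from this]
    exact (N a c ⟨β, hβ⟩).2
  · intro c c' β hβ
    have e1 := congrArg (fun f => ((f (⟨β, hβ⟩ : OVO14.BB C) : OVO14.BB C) : M)) (h1 c c')
    have e2 : ((∑ a, OVO14.GB G' hst (some a) c * N a c') (⟨β, hβ⟩ : OVO14.BB C) : OVO14.BB C) =
        ∑ a, OVO14.GB G' hst (some a) c (N a c' ⟨β, hβ⟩) := by
      simp [LinearMap.sum_apply]
    have e3 : ∑ a : Fin 4, G a.succ c (N' a c' β) =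
        ((∑ a, OVO14.GB G' hst (some a) c (N a c' ⟨β, hβ⟩) : OVO14.BB C) : M) := by
      rw [Submodule.coe_sum]
      refine Finset.sum_congr rfl fun a _ => ?_
      rw [gb, ← hN' a c' ⟨β, hβ⟩]
      rfl
    rw [e3, ← e2]
    refine e1.trans ?_
    by_cases hc : c = c'
    · simp [hc]
    · simp [hc]
  · intro a a' β hβ
    have e1 := congrArg (fun f => ((f (⟨β, hβ⟩ : OVO14.BB C) : OVO14.BB C) : M)) (h2 a a')
    have e2 : ((∑ c, N a c * OVO14.GB G' hst (some a') c) (⟨β, hβ⟩ : OVO14.BB C) : OVO14.BB C) =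
        ∑ c, N a c (OVO14.GB G' hst (some a') c ⟨β, hβ⟩) := by
      simp [LinearMap.sum_apply]
    have e3 : ∑ c : Fin 4, N' a c (G a'.succ c β) =
        ((∑ c, N a c (OVO14.GB G' hst (some a') c ⟨β, hβ⟩) : OVO14.BB C) : M) := by
      rw [Submodule.coe_sum]
      refine Finset.sum_congr rfl fun c _ => ?_
      rw [← hN' a c (OVO14.GB G' hst (some a') c ⟨β, hβ⟩)]
      rfl
    rw [e3, ← e2]
    refine e1.trans ?_
    by_cases ha : a = a'
    · simp [ha]
    · simp [ha]
  · intro a c a' c' β hβ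
    cases a' using Fin.cases with
    | zero =>
      exact congrArg (fun f => ((f (⟨β, hβ⟩ : OVO14.BB C) : OVO14.BB C) : M)) (h4 a c none c')
    | succ a' =>
      exact congrArg (fun f => ((f (⟨β, hβ⟩ : OVO14.BB C) : OVO14.BB C) : M)) (h4 a c (some a') c')
  · intro a c a' c' β hβ
    have key : ∀ o : Option (Fin 4), G' o c (N' a' c' β) = N' a' c' (G' o c β) := by
      intro o
      have e1 := congrArg (fun f => ((f (⟨β, hβ⟩ : OVO14.BB C) : OVO14.BB C) : M)) (h5 o c a' c')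
      have e2 := hN' a' c' ⟨β, hβ⟩
      have e3 := hN' a' c' (OVO14.GB G' hst o c ⟨β, hβ⟩)
      rw [gb] at e3
      rw [show N' a' c' β = _ from e2, show N' a' c' (G' o c β) = _ from e3]
      exact e1
    cases a using Fin.cases with
    | zero => exact key none
    | succ a => exact key (some a)
  · intro a c a' c' β hβ
    have e1 := congrArg (fun f => ((f (⟨β, hβ⟩ : OVO14.BB C) : OVO14.BB C) : M)) (h6 a c a' c')
    have e2 := hN' a' c' ⟨β, hβ⟩
    have e3 := hN' a c ⟨β, hβ⟩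
    have e4 := hN' a c (N a' c' ⟨β, hβ⟩)
    have e5 := hN' a' c' (N a c ⟨β, hβ⟩)
    rw [show N' a' c' β = _ from e2, show N' a c β = _ from e3, e4, e5]
    exact e1
  · intro X X' hX
    have hXB : ∀ β ∈ OVO14.BB C, X β ∈ OVO14.BB C := by
      have h8 : OVO14.BB C ≤ (OVO14.BB C).comap X := OVO14.BB_le fun b i m => by
        rw [Submodule.mem_comap, hX]
        exact OVO14.mem_BB C b i _
      exact h8
    obtain ⟨h7, h8⟩ := h3 (X.restrict hXB) X' (fun b i m => Subtype.ext (hX b i m))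
    constructor
    · intro a c β hβ
      cases a using Fin.cases with
      | zero =>
        exact congrArg (fun f => ((f (⟨β, hβ⟩ : OVO14.BB C) : OVO14.BB C) : M)) (h7 none c)
      | succ a =>
        exact congrArg (fun f => ((f (⟨β, hβ⟩ : OVO14.BB C) : OVO14.BB C) : M)) (h7 (some a) c)
    · intro a c β hβ
      have e1 := congrArg (fun f => ((f (⟨β, hβ⟩ : OVO14.BB C) : OVO14.BB C) : M)) (h8 a c)
      have e2 := hN' a c ⟨β, hβ⟩
      have e3 := hN' a c (X.restrict hXB ⟨β, hβ⟩)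
      have e4 : ((X.restrict hXB ⟨β, hβ⟩ : OVO14.BB C) : M) = X β := rfl
      rw [e4] at e3
      rw [show N' a c β = _ from e2, show N' a c (X β) = _ from e3]
      exact e1

/-- **ABS1** on `E`. -/
theorem abs1 {h : ℕ} [NeZero h] (C : Fin 4 → Fin 4 → Module.End F (E F h))
    (G : Fin 5 → Fin 4 → Module.End F (E F h))
    (hC : ∀ b i φ ψ, bf (C b i φ) ψ = bf φ (C b i ψ))
    (hG : ∀ a c φ ψ, bf (G a c φ) ψ = bf φ (G a c ψ))
    (hL : ∀ c b i : Fin 4, ∑ a : Fin 5, G a c * (∑ l, J (F := F) a l i • C b l) =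
      ∑ b', gam (F := F) (Pi.single c 1) b b' • C b' i) :
    ∃ N : Fin 4 → Fin 4 → Module.End F (E F h),
      (∀ a c, ∀ β ∈ imB C, G a c β ∈ imB C) ∧
      (∀ a c, ∀ β ∈ imB C, N a c β ∈ imB C) ∧
      (∀ c c', ∀ β ∈ imB C, ∑ a : Fin 4, G a.succ c (N a c' β) = if c = c' then β else 0) ∧
      (∀ a a', ∀ β ∈ imB C, ∑ c, N a c (G a'.succ c β) = if a = a' then β else 0) ∧
      (∀ (a : Fin 4) (c : Fin 4) (a' : Fin 5) (c' : Fin 4), ∀ β ∈ imB C,
        G a.succ c (G a' c' β) = G a' c' (G a.succ c β)) ∧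
      (∀ (a : Fin 5) (c : Fin 4) (a' : Fin 4) (c' : Fin 4), ∀ β ∈ imB C,
        G a c (N a' c' β) = N a' c' (G a c β)) ∧
      (∀ a c a' c', ∀ β ∈ imB C, N a c (N a' c' β) = N a' c' (N a c β)) ∧
      (∀ X X' : Module.End F (E F h), (∀ b i m, X (C b i m) = C b i (X' m)) →
        (∀ (a : Fin 5) (c : Fin 4), ∀ β ∈ imB C, X (G a c β) = G a c (X β)) ∧
        ∀ a c, ∀ β ∈ imB C, X (N a c β) = N a c (X β)) :=
  abs1_gen OVE14.bfL OVE14.bfL_nondeg OVE14.bf_comm C G G hC hG hL

end abs1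

end Pool.OVE
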