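import Pool.Agent.H14.OVO.Defs

/-!
# CORE1: the linear algebra of sections 1-3 of OVO_PROOF (helper40)

`C b i` are the slot operators, `G a c` the slot-1 operators of the twisted map, `(L)` is E18.
-/

set_option autoImplicit false
set_option linter.unusedSectionVars false

namespace Pool.OVO14

open LinearMap

section core

variable {F : Type*} [Field F] [CharP F 2] {M : Type*} [AddCommGroup M] [Module F M]

/-- The relation (L). -/
def RelL (C : Fin 4 → Fin 4 → Module.End F M) (G : Option (Fin 4) → Fin 4 → Module.End F M) :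
    Prop :=
  ∀ c b i : Fin 4, ∑ a, G a c * (∑ l, J F a l i • C b l) = ∑ b', gam F c b b' • C b' i

/-- The sum of the images. -/
def BB (C : Fin 4 → Fin 4 → Module.End F M) : Submodule F M := ⨆ b, ⨆ i, range (C b i)

theorem mem_BB (C : Fin 4 → Fin 4 → Module.End F M) (b i : Fin 4) (m : M) : C b i m ∈ BB C := by
  have h1 : range (C b i) ≤ BB C :=
    le_trans (le_iSup (fun i => range (C b i)) i) (le_iSup (fun b => ⨆ i, range (C b i)) b)
  exact h1 (mem_range_self _ _)

theorem BB_le {C : Fin 4 → Fin 4 → Module.End F M} {W : Submodule F M}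
    (h : ∀ b i m, C b i m ∈ W) : BB C ≤ W := by
  refine iSup_le fun b => iSup_le fun i => ?_
  rintro _ ⟨m, rfl⟩
  exact h b i m

/-- The map `E`. -/
noncomputable def EE (C : Fin 4 → Fin 4 → Module.End F M) : (Fin 4 → M) →ₗ[F] (Fin 4 → M) :=
  LinearMap.pi fun i => ∑ b, (C b i).comp (LinearMap.proj b)

theorem EE_apply (C : Fin 4 → Fin 4 → Module.End F M) (ξ : Fin 4 → M) (i : Fin 4) :
    EE C ξ i = ∑ b, C b i (ξ b) := by
  simp [EE]

/-- The map `γ(c)ᵀ`. -/
noncomputable def TT (F : Type*) [Field F] [CharP F 2] (M : Type*) [AddCommGroup M] [Module F M]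
    (c : Fin 4) : (Fin 4 → M) →ₗ[F] (Fin 4 → M) :=
  LinearMap.pi fun b' => ∑ b, gam F c b b' • (LinearMap.proj b)

theorem TT_apply (c : Fin 4) (ξ : Fin 4 → M) (b' : Fin 4) :
    TT F M c ξ b' = ∑ b, gam F c b b' • ξ b := by
  simp [TT]

/-- The map `Θ_c` on `V₁ ⊗ M`. -/
noncomputable def PP (G : Option (Fin 4) → Fin 4 → Module.End F M) (c : Fin 4) :
    (Fin 4 → M) →ₗ[F] (Fin 4 → M) :=
  LinearMap.pi fun i => ∑ a, ∑ l, J F a l i • (G a c).comp (LinearMap.proj l)

theorem PP_apply (G : Option (Fin 4) → Fin 4 → Module.End F M) (c : Fin 4) (u : Fin 4 → M)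
    (i : Fin 4) : PP G c u i = ∑ a, ∑ l, J F a l i • G a c (u l) := by
  simp [PP]

variable {C : Fin 4 → Fin 4 → Module.End F M} {G : Option (Fin 4) → Fin 4 → Module.End F M}

theorem RelL.apply (h : RelL C G) (c b i : Fin 4) (m : M) :
    ∑ a, ∑ l, J F a l i • G a c (C b l m) = ∑ b', gam F c b b' • C b' i m := by
  have h1 := LinearMap.congr_fun (h c b i) m
  simpa [LinearMap.sum_apply, map_sum, map_smul] using h1

theorem PP_EE (h : RelL C G) (c : Fin 4) (ξ : Fin 4 → M) :
    PP G c (EE C ξ) = EE C (TT F M c ξ) := by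
  funext i
  rw [PP_apply, EE_apply]
  simp only [EE_apply, TT_apply, map_sum, map_smul, Finset.smul_sum]
  have h1 : ∀ a : Option (Fin 4), ∑ l, ∑ b, J F a l i • G a c (C b l (ξ b)) =
      ∑ b, ∑ l, J F a l i • G a c (C b l (ξ b)) := fun a => Finset.sum_comm
  rw [Finset.sum_congr rfl fun a _ => h1 a, Finset.sum_comm]
  rw [Finset.sum_congr rfl fun b _ => h.apply c b i (ξ b), Finset.sum_comm]

/-- A subspace stable under the Clifford matrices contains all components. -/
theorem clif_stable (K : Submodule F (Fin 4 → M)) (hK : ∀ c, ∀ ξ ∈ K, TT F M c ξ ∈ K)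
    {ξ : Fin 4 → M} (hξ : ξ ∈ K) (b b' : Fin 4) : Pi.single b' (ξ b) ∈ K := by
  have hT : ∀ (c : Fin 4) (ξ : Fin 4 → M), TT F M c ξ = ![
      (if c = 2 then ξ 1 else 0) + (if c = 3 then ξ 2 else 0),
      (if c = 1 then ξ 0 else 0) + (if c = 3 then ξ 3 else 0),
      (if c = 0 then ξ 0 else 0) + (if c = 2 then ξ 3 else 0),
      (if c = 0 then ξ 1 else 0) + (if c = 1 then ξ 2 else 0)] := by
    intro c ξ
    funext b'
    rw [TT_apply, Fin.sum_univ_four]
    simp only [gam_eq]
    fin_cases b' <;> fin_cases c <;> simp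
  have h0 : ∀ ξ : Fin 4 → M, TT F M 0 ξ = ![0, 0, ξ 0, ξ 1] := fun ξ => by rw [hT]; simp
  have h1 : ∀ ξ : Fin 4 → M, TT F M 1 ξ = ![0, ξ 0, 0, ξ 2] := fun ξ => by rw [hT]; simp
  have h2 : ∀ ξ : Fin 4 → M, TT F M 2 ξ = ![ξ 1, 0, ξ 3, 0] := fun ξ => by rw [hT]; simp
  have h3 : ∀ ξ : Fin 4 → M, TT F M 3 ξ = ![ξ 2, ξ 3, 0, 0] := fun ξ => by rw [hT]; simp
  -- from one vector `single`
  have key : ∀ m : M, (∃ b, Pi.single b m ∈ K) → ∀ b', Pi.single b' m ∈ K := by
    intro m ⟨b, hb⟩
    have e0 : (Pi.single 0 m : Fin 4 → M) = ![m, 0, 0, 0] := by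
      funext i; fin_cases i <;> rfl
    have e1 : (Pi.single 1 m : Fin 4 → M) = ![0, m, 0, 0] := by
      funext i; fin_cases i <;> rfl
    have e2 : (Pi.single 2 m : Fin 4 → M) = ![0, 0, m, 0] := by
      funext i; fin_cases i <;> rfl
    have e3 : (Pi.single 3 m : Fin 4 → M) = ![0, 0, 0, m] := by
      funext i; fin_cases i <;> rfl
    have s01 : (![m, 0, 0, 0] : Fin 4 → M) ∈ K → (![0, m, 0, 0] : Fin 4 → M) ∈ K := by
      intro h; have := hK 1 _ h; rw [h1] at this; simpa using this
    have s13 : (![0, m, 0, 0] : Fin 4 → M) ∈ K → (![0, 0, 0, m] : Fin 4 → M) ∈ K := by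
      intro h; have := hK 0 _ h; rw [h0] at this; simpa using this
    have s32 : (![0, 0, 0, m] : Fin 4 → M) ∈ K → (![0, 0, m, 0] : Fin 4 → M) ∈ K := by
      intro h; have := hK 2 _ h; rw [h2] at this; simpa using this
    have s20 : (![0, 0, m, 0] : Fin 4 → M) ∈ K → (![m, 0, 0, 0] : Fin 4 → M) ∈ K := by
      intro h; have := hK 3 _ h; rw [h3] at this; simpa using this
    have hm : (![m, 0, 0, 0] : Fin 4 → M) ∈ K := by
      fin_cases b
      · rw [← e0]; exact hb
      · exact s20 (s32 (s13 (e1 ▸ hb)))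
      · exact s20 (e2 ▸ hb)
      · exact s20 (s32 (e3 ▸ hb))
    intro b'
    fin_cases b'
    · show Pi.single 0 m ∈ K
      rw [e0]; exact hm
    · show Pi.single 1 m ∈ K
      rw [e1]; exact s01 hm
    · show Pi.single 2 m ∈ K
      rw [e2]; exact s32 (s13 (s01 hm))
    · show Pi.single 3 m ∈ K
      rw [e3]; exact s13 (s01 hm)
  apply key
  fin_cases b
  · refine ⟨3, ?_⟩
    have := hK 1 _ (hK 0 _ hξ)
    rw [h0, h1] at this
    convert this using 1
    funext i; fin_cases i <;> simp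
  · refine ⟨2, ?_⟩
    have := hK 2 _ (hK 0 _ hξ)
    rw [h0, h2] at this
    convert this using 1
    funext i; fin_cases i <;> simp
  · refine ⟨1, ?_⟩
    have := hK 1 _ (hK 3 _ hξ)
    rw [h3, h1] at this
    convert this using 1
    funext i; fin_cases i <;> simp
  · refine ⟨0, ?_⟩
    have := hK 2 _ (hK 3 _ hξ)
    rw [h3, h2] at this
    convert this using 1
    funext i; fin_cases i <;> simp

/-- The common kernel. -/
def Z0 (C : Fin 4 → Fin 4 → Module.End F M) : Submodule F M := ⨅ b, ⨅ i, ker (C b i)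

theorem mem_Z0 {m : M} : m ∈ Z0 C ↔ ∀ b i, C b i m = 0 := by
  simp [Z0, Submodule.mem_iInf]

theorem ker_EE (h : RelL C G) : ker (EE C) = Submodule.pi Set.univ (fun _ : Fin 4 => Z0 C) := by
  apply le_antisymm
  · intro ξ hξ
    rw [Submodule.mem_pi]
    intro b _
    rw [mem_Z0]
    intro b' i
    have h1 := clif_stable (ker (EE C)) (fun c ζ hζ => by
      rw [mem_ker] at hζ ⊢
      rw [← PP_EE h, hζ, map_zero]) hξ b b'
    rw [mem_ker] at h1
    have h2 := congrFun h1 i
    rw [EE_apply, Finset.sum_eq_single b'] at h2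
    · simpa using h2
    · intro d _ hd
      rw [Pi.single_eq_of_ne hd, map_zero]
    · intro h; exact absurd (Finset.mem_univ _) h
  · intro ξ hξ
    rw [mem_ker]
    funext i
    rw [EE_apply]
    rw [Submodule.mem_pi] at hξ
    exact Finset.sum_eq_zero fun b _ => mem_Z0.1 (hξ b (Set.mem_univ _)) b i

/-- `M⁴` for a subspace. -/
theorem finrank_pi4 [FiniteDimensional F M] (W : Submodule F M) :
    Module.finrank F (Submodule.pi Set.univ (fun _ : Fin 4 => W)) = 4 * Module.finrank F W := by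
  let e : (Submodule.pi Set.univ (fun _ : Fin 4 => W)) ≃ₗ[F] (Fin 4 → W) :=
    { toFun := fun u b => ⟨u.1 b, Submodule.mem_pi.1 u.2 b (Set.mem_univ _)⟩
      invFun := fun u => ⟨fun b => (u b : M), Submodule.mem_pi.2 fun b _ => (u b).2⟩
      map_add' := fun _ _ => rfl
      map_smul' := fun _ _ => rfl
      left_inv := fun _ => rfl
      right_inv := fun _ => rfl }
  rw [e.finrank_eq, Module.finrank_pi_fintype]
  simp

variable [FiniteDimensional F M]

theorem finrank_BB (Bf : LinearMap.BilinForm F M) (hB : Bf.Nondegenerate)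
    (hs : ∀ x y, Bf x y = Bf y x) (hC : ∀ b i x y, Bf (C b i x) y = Bf x (C b i y)) :
    Module.finrank F (BB C) + Module.finrank F (Z0 C) = Module.finrank F M := by
  have h1 : Z0 C = Bf.orthogonal (BB C) := by
    apply le_antisymm
    · intro m hm
      rw [LinearMap.BilinForm.mem_orthogonal_iff]
      intro n hn
      have h2 : BB C ≤ LinearMap.ker (Bf.flip m) := by
        apply BB_le
        intro b i m'
        rw [LinearMap.mem_ker]
        show Bf (C b i m') m = 0
        rw [hC, mem_Z0.1 hm, map_zero]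
      exact h2 hn
    · intro m hm
      rw [mem_Z0]
      intro b i
      rw [LinearMap.BilinForm.mem_orthogonal_iff] at hm
      refine hB.1 _ fun n => ?_
      rw [hC, hs]
      exact hm _ (mem_BB C b i n)
  have h2 := LinearMap.BilinForm.finrank_orthogonal hB (BB C)
  rw [← h1] at h2
  have h3 := Submodule.finrank_le (BB C)
  omega

end core

end Pool.OVO14
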