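import Pool.Agent.H14.OVO.Core1

/-!
# CORE1, second part: centrality, the inverse matrix
-/

set_option autoImplicit false
set_option linter.unusedSectionVars false

namespace Pool.OVO14

open LinearMap

section core

variable {F : Type*} [Field F] [CharP F 2] {M : Type*} [AddCommGroup M] [Module F M]
variable {C : Fin 4 → Fin 4 → Module.End F M} {G Gs : Option (Fin 4) → Fin 4 → Module.End F M}

theorem RelL.lin (h : RelL C G) (c b : Fin 4) (x : Fin 4 → F) (n : M) :
    ∑ a, ∑ l, (∑ m, J F a l m * x m) • G a c (C b l n) =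
      ∑ b', gam F c b b' • ∑ m, x m • C b' m n := by
  have h1 : ∀ m : Fin 4, x m • ∑ a, ∑ l, J F a l m • G a c (C b l n) =
      x m • ∑ b', gam F c b b' • C b' m n := fun m => by rw [h.apply c b m n]
  have h2 := Finset.sum_congr (rfl : (Finset.univ : Finset (Fin 4)) = Finset.univ)
    (fun m _ => h1 m)
  simp only [Finset.smul_sum, Finset.sum_smul, smul_smul] at h2 ⊢
  have h3 : ∑ a, ∑ l, ∑ m, (J F a l m * x m) • G a c (C b l n) =
      ∑ m, ∑ a, ∑ l, (x m * J F a l m) • G a c (C b l n) := by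
    rw [Finset.sum_comm]
    rw [Finset.sum_congr rfl fun l _ => Finset.sum_comm, Finset.sum_comm]
    refine Finset.sum_congr rfl fun m _ => ?_
    rw [Finset.sum_comm]
    refine Finset.sum_congr rfl fun a _ => Finset.sum_congr rfl fun l _ => ?_
    rw [mul_comm]
  rw [h3, h2, Finset.sum_comm]
  refine Finset.sum_congr rfl fun b' _ => Finset.sum_congr rfl fun m _ => ?_
  rw [mul_comm]

/-- The transposed relation (R). -/
theorem relR (Bf : LinearMap.BilinForm F M) (hB : Bf.Nondegenerate)
    (hs : ∀ x y, Bf x y = Bf y x) (hC : ∀ b i x y, Bf (C b i x) y = Bf x (C b i y))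
    (hG : ∀ a c x y, Bf (G a c x) y = Bf x (Gs a c y)) (h : RelL C G) (c b : Fin 4)
    (x : Fin 4 → F) (n : M) :
    ∑ a, ∑ l, (∑ m, J F a l m * x m) • C b l (Gs a c n) =
      ∑ b', gam F c b b' • ∑ m, x m • C b' m n := by
  rw [← sub_eq_zero]
  refine hB.1 _ fun y => ?_
  have h1 := congrArg (fun v => Bf v n) (h.lin c b x y)
  simp only [map_sum, map_smul, LinearMap.sum_apply, LinearMap.smul_apply, smul_eq_mul] at h1
  rw [map_sub, LinearMap.sub_apply, sub_eq_zero]
  simp only [map_sum, map_smul, LinearMap.sum_apply, LinearMap.smul_apply, smul_eq_mul]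
  have e1 : ∀ (a : Option (Fin 4)) (l : Fin 4), Bf (C b l (Gs a c n)) y =
      Bf (G a c (C b l y)) n := by
    intro a l
    rw [hC, hs, hG]
  have e2 : ∀ (b' m : Fin 4), Bf (C b' m n) y = Bf (C b' m y) n := by
    intro b' m
    rw [hC, hs]
  simp only [e1, e2]
  exact h1

/-- The relation (**). -/
theorem starstar (Bf : LinearMap.BilinForm F M) (hB : Bf.Nondegenerate)
    (hs : ∀ x y, Bf x y = Bf y x) (hC : ∀ b i x y, Bf (C b i x) y = Bf x (C b i y))
    (hG : ∀ a c x y, Bf (G a c x) y = Bf x (Gs a c y)) (h : RelL C G) (c d b i : Fin 4) (n : M) :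
    ∑ a, ∑ a', gg F a a' • G a c (C b i (Gs a' d n)) = om F c d • C b i n := by
  have A1 : ∑ a, ∑ a', ∑ l, (∑ m, J F a' l m * J F a m i) • G a c (C b l (Gs a' d n)) =
      ∑ b', gam F d b b' • ∑ b'', gam F c b' b'' • C b'' i n := by
    have e1 : ∀ a : Option (Fin 4), ∑ a', ∑ l, (∑ m, J F a' l m * J F a m i) •
        G a c (C b l (Gs a' d n)) = G a c (∑ b', gam F d b b' • ∑ m, J F a m i • C b' m n) := by
      intro a
      rw [← relR Bf hB hs hC hG h d b (fun m => J F a m i) n]
      simp only [map_sum, map_smul]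
    rw [Finset.sum_congr rfl fun a _ => e1 a]
    simp only [map_sum, map_smul]
    rw [Finset.sum_comm]
    refine Finset.sum_congr rfl fun b' _ => ?_
    rw [← Finset.smul_sum, h.apply]
  have A2 : ∑ a, ∑ a', ∑ l, (∑ m, J F a l m * J F a' m i) • G a c (C b l (Gs a' d n)) =
      ∑ b', gam F c b b' • ∑ b'', gam F d b' b'' • C b'' i n := by
    rw [Finset.sum_comm]
    rw [Finset.sum_congr rfl fun a' _ => h.lin c b (fun m => J F a' m i) (Gs a' d n)]
    rw [Finset.sum_comm]
    refine Finset.sum_congr rfl fun b' _ => ?_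
    rw [← Finset.smul_sum]
    congr 1
    have := relR Bf hB hs hC hG h d b' (fun m => if m = i then 1 else 0) n
    simp only [mul_ite, mul_one, mul_zero, Finset.sum_ite_eq', Finset.mem_univ, if_true,
      ite_smul, one_smul, zero_smul] at this
    exact this
  have A3 : ∑ a, ∑ a', ∑ l, (∑ m, J F a' l m * J F a m i) • G a c (C b l (Gs a' d n)) +
      ∑ a, ∑ a', ∑ l, (∑ m, J F a l m * J F a' m i) • G a c (C b l (Gs a' d n)) =
      ∑ a, ∑ a', gg F a a' • G a c (C b i (Gs a' d n)) := by
    simp only [← Finset.sum_add_distrib, ← add_smul]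
    refine Finset.sum_congr rfl fun a _ => Finset.sum_congr rfl fun a' _ => ?_
    rw [Finset.sum_eq_single i]
    · rw [Finset.sum_add_distrib, add_comm, J_clifford, if_pos rfl, mul_one]
    · intro l _ hl
      rw [Finset.sum_add_distrib, add_comm, J_clifford, if_neg hl, mul_zero, zero_smul]
    · intro h; exact absurd (Finset.mem_univ _) h
  rw [← A3, A1, A2]
  simp only [Finset.smul_sum, smul_smul]
  rw [← Finset.sum_add_distrib]
  simp only [← Finset.sum_add_distrib, ← add_smul]
  rw [Finset.sum_comm]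
  rw [Finset.sum_eq_single b]
  · rw [← Finset.sum_smul, Finset.sum_add_distrib, add_comm, gam_clifford, if_pos rfl, mul_one]
  · intro b'' _ hb
    rw [← Finset.sum_smul, Finset.sum_add_distrib, add_comm, gam_clifford,
      if_neg (Ne.symm hb), mul_zero, zero_smul]
  · intro h; exact absurd (Finset.mem_univ _) h

/-- The slot operators with values in the sum of the images. -/
noncomputable def CB (C : Fin 4 → Fin 4 → Module.End F M) (b i : Fin 4) : M →ₗ[F] BB C :=
  (C b i).codRestrict (BB C) (mem_BB C b i)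

theorem CB_coe (b i : Fin 4) (m : M) : ((CB C b i m : BB C) : M) = C b i m := rfl

theorem BB_induction {W : Submodule F (BB C)} (h : ∀ b i m, CB C b i m ∈ W) : W = ⊤ := by
  rw [eq_top_iff]
  intro β _
  have h1 : BB C ≤ W.map (BB C).subtype := BB_le fun b i m =>
    ⟨CB C b i m, h b i m, rfl⟩
  obtain ⟨w, hw, hw2⟩ := h1 β.2
  have h3 : w = β := Subtype.ext hw2
  rw [← h3]
  exact hw

/-- The map `E` with values in `V₁ ⊗ BB`. -/
noncomputable def EB (C : Fin 4 → Fin 4 → Module.End F M) : (Fin 4 → M) →ₗ[F] (Fin 4 → BB C) :=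
  LinearMap.pi fun i => ∑ b, (CB C b i).comp (LinearMap.proj b)

theorem EB_apply (ξ : Fin 4 → M) (i : Fin 4) : EB C ξ i = ∑ b, CB C b i (ξ b) := by
  simp [EB]

theorem EB_coe (ξ : Fin 4 → M) (i : Fin 4) : ((EB C ξ i : BB C) : M) = EE C ξ i := by
  rw [EB_apply, EE_apply]
  simp [CB_coe]

theorem EB_surj [FiniteDimensional F M] (Bf : LinearMap.BilinForm F M) (hB : Bf.Nondegenerate)
    (hs : ∀ x y, Bf x y = Bf y x) (hC : ∀ b i x y, Bf (C b i x) y = Bf x (C b i y))
    (h : RelL C G) : Function.Surjective (EB C) := by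
  have h1 : ker (EB C) = Submodule.pi Set.univ (fun _ : Fin 4 => Z0 C) := by
    rw [← ker_EE h]
    ext ξ
    rw [mem_ker, mem_ker]
    constructor
    · intro h2
      funext i
      rw [← EB_coe, h2]
      rfl
    · intro h2
      funext i
      apply Subtype.ext
      rw [EB_coe, h2]
      rfl
  have h2 := LinearMap.finrank_range_add_finrank_ker (EB C)
  rw [h1, finrank_pi4, Module.finrank_pi_fintype] at h2
  have h3 := finrank_BB Bf hB hs hC
  have h4 : Module.finrank F (Fin 4 → BB C) = 4 * Module.finrank F (BB C) := by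
    rw [Module.finrank_pi_fintype]; simp
  rw [← LinearMap.range_eq_top]
  apply Submodule.eq_top_of_finrank_eq
  rw [h4]
  simp at h2
  omega

theorem EB_relL (h : RelL C G) (c : Fin 4) (ξ : Fin 4 → M) (i : Fin 4) :
    ∑ a, ∑ l, J F a l i • G a c (EB C ξ l : BB C) = (EB C (TT F M c ξ) i : BB C) := by
  rw [EB_coe, ← PP_EE h, PP_apply]
  simp only [EB_coe]

/-- (a): `BB` is stable. -/
theorem stable [FiniteDimensional F M] (Bf : LinearMap.BilinForm F M) (hB : Bf.Nondegenerate)
    (hs : ∀ x y, Bf x y = Bf y x) (hC : ∀ b i x y, Bf (C b i x) y = Bf x (C b i y))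
    (h : RelL C G) (a : Option (Fin 4)) (c : Fin 4) : ∀ β ∈ BB C, G a c β ∈ BB C := by
  intro β hβ
  obtain ⟨ξ, hξ⟩ := EB_surj Bf hB hs hC h (Pi.single (pos a).1 ⟨β, hβ⟩)
  have h1 := EB_relL h c ξ (pos a).2
  rw [hξ] at h1
  have h2 : ∑ a', ∑ l, J F a' l (pos a).2 •
      G a' c ((Pi.single (pos a).1 (⟨β, hβ⟩ : BB C) : Fin 4 → BB C) l : BB C) = G a c β := by
    have e1 : ∀ a' : Option (Fin 4), ∑ l, J F a' l (pos a).2 •
        G a' c ((Pi.single (pos a).1 (⟨β, hβ⟩ : BB C) : Fin 4 → BB C) l : BB C) =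
        J F a' (pos a).1 (pos a).2 • G a' c β := by
      intro a'
      rw [Finset.sum_eq_single (pos a).1]
      · rw [Pi.single_eq_same]
      · intro l _ hl
        rw [Pi.single_eq_of_ne hl]
        simp
      · intro h; exact absurd (Finset.mem_univ _) h
    rw [Finset.sum_congr rfl fun a' _ => e1 a']
    simp only [J_pos, ite_smul, one_smul, zero_smul, Finset.sum_ite_eq', Finset.mem_univ, if_true]
  rw [← h2, h1]
  exact (EB C (TT F M c ξ) (pos a).2).2

/-- The restriction of `G` to `BB`. -/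
noncomputable def GB (G : Option (Fin 4) → Fin 4 → Module.End F M)
    (hst : ∀ a c, ∀ β ∈ BB C, G a c β ∈ BB C) (a : Option (Fin 4)) (c : Fin 4) :
    Module.End F (BB C) := (G a c).restrict (hst a c)

theorem GB_coe (hst : ∀ a c, ∀ β ∈ BB C, G a c β ∈ BB C) (a : Option (Fin 4)) (c : Fin 4)
    (β : BB C) : ((GB G hst a c β : BB C) : M) = G a c β := rfl

/-- (b): centrality. -/
theorem central (hsur : Function.Surjective (EB C)) (h : RelL C G)
    (hst : ∀ a c, ∀ β ∈ BB C, G a c β ∈ BB C)
    (P : Module.End F (BB C)) (P' : Module.End F M)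
    (hP : ∀ b i m, P (CB C b i m) = CB C b i (P' m)) (a : Option (Fin 4)) (c : Fin 4) :
    P * GB G hst a c = GB G hst a c * P := by
  apply LinearMap.ext
  intro β
  obtain ⟨ξ, hξ⟩ := hsur (Pi.single (pos a).1 β)
  have hPE : ∀ (ζ : Fin 4 → M) (i : Fin 4), P (EB C ζ i) = EB C (fun b => P' (ζ b)) i := by
    intro ζ i
    rw [EB_apply, EB_apply, map_sum]
    exact Finset.sum_congr rfl fun b _ => hP b i (ζ b)
  have hTP : ∀ (ζ : Fin 4 → M) (b' : Fin 4), P' (TT F M c ζ b') = TT F M c (fun b => P' (ζ b)) b' := by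
    intro ζ b'
    rw [TT_apply, TT_apply, map_sum]
    exact Finset.sum_congr rfl fun b _ => map_smul _ _ _
  -- the relation in `BB`
  have hrel : ∀ (ζ : Fin 4 → M) (i : Fin 4),
      ∑ a, ∑ l, J F a l i • GB G hst a c (EB C ζ l) = EB C (TT F M c ζ) i := by
    intro ζ i
    apply Subtype.ext
    rw [← EB_relL h c ζ i]
    simp [GB_coe]
  have sel : ∀ (Y : Option (Fin 4) → BB C → BB C) (hY : ∀ a, Y a 0 = 0) (v : BB C),
      ∑ a', ∑ l, J F a' l (pos a).2 • Y a' ((Pi.single (pos a).1 v : Fin 4 → BB C) l) = Y a v := by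
    intro Y hY v
    have e1 : ∀ a' : Option (Fin 4), ∑ l, J F a' l (pos a).2 •
        Y a' ((Pi.single (pos a).1 v : Fin 4 → BB C) l) =
        J F a' (pos a).1 (pos a).2 • Y a' v := by
      intro a'
      rw [Finset.sum_eq_single (pos a).1]
      · rw [Pi.single_eq_same]
      · intro l _ hl
        rw [Pi.single_eq_of_ne hl, hY, smul_zero]
      · intro h; exact absurd (Finset.mem_univ _) h
    rw [Finset.sum_congr rfl fun a' _ => e1 a']
    simp only [J_pos, ite_smul, one_smul, zero_smul, Finset.sum_ite_eq', Finset.mem_univ, if_true]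
  have h1 := hrel ξ (pos a).2
  rw [hξ, sel (fun a' v => GB G hst a' c v) (fun a' => map_zero _) β] at h1
  have h2 := hrel (fun b => P' (ξ b)) (pos a).2
  have h3 : ∀ l, EB C (fun b => P' (ξ b)) l = (Pi.single (pos a).1 (P β) : Fin 4 → BB C) l := by
    intro l
    rw [← hPE, hξ]
    by_cases hl : l = (pos a).1
    · rw [hl, Pi.single_eq_same, Pi.single_eq_same]
    · rw [Pi.single_eq_of_ne hl, Pi.single_eq_of_ne hl, map_zero]
  simp only [h3] at h2
  rw [sel (fun a' v => GB G hst a' c v) (fun a' => map_zero _) (P β)] at h2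
  show P (GB G hst a c β) = GB G hst a c (P β)
  rw [h1, h2, hPE]
  exact congrFun (congrArg (EB C) (funext fun b' => hTP ξ b')) (pos a).2

/-- The map with matrix `G_{a,c}`, `a ≠ 0`. -/
noncomputable def GH (G : Option (Fin 4) → Fin 4 → Module.End F M)
    (hst : ∀ a c, ∀ β ∈ BB C, G a c β ∈ BB C) : (Fin 4 → BB C) →ₗ[F] (Fin 4 → BB C) :=
  LinearMap.pi fun c => ∑ a, (GB G hst (some a) c).comp (LinearMap.proj a)

theorem GH_apply (hst : ∀ a c, ∀ β ∈ BB C, G a c β ∈ BB C) (β : Fin 4 → BB C) (c : Fin 4) :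
    GH G hst β c = ∑ a, GB G hst (some a) c (β a) := by
  simp [GH]

theorem GH_vec (Bf : LinearMap.BilinForm F M) (hB : Bf.Nondegenerate)
    (hs : ∀ x y, Bf x y = Bf y x) (hC : ∀ b i x y, Bf (C b i x) y = Bf x (C b i y))
    (hG : ∀ a c x y, Bf (G a c x) y = Bf x (Gs a c y)) (h : RelL C G)
    (hst : ∀ a c, ∀ β ∈ BB C, G a c β ∈ BB C) (c b i : Fin 4) (m : M) :
    GH G hst (fun a => CB C b i ((∑ a', om F a a' • Gs (some a') (Fin.rev c)) m)) =
      Pi.single c (CB C b i m) := by
  funext c'
  rw [GH_apply]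
  apply Subtype.ext
  have h1 := starstar Bf hB hs hC hG h c' (Fin.rev c) b i m
  rw [Fintype.sum_option] at h1
  simp only [gg_none_left, zero_smul, Finset.sum_const_zero, zero_add] at h1
  simp only [Fintype.sum_option, gg_none_right, zero_smul, zero_add, gg_some] at h1
  have h2 : ((∑ a, GB G hst (some a) c' (CB C b i ((∑ a', om F a a' • Gs (some a')
      (Fin.rev c)) m)) : BB C) : M) =
      ∑ a, ∑ a', om F a a' • G (some a) c' (C b i (Gs (some a') (Fin.rev c) m)) := by
    simp [GB_coe, CB_coe, LinearMap.sum_apply, map_sum, map_smul]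
  rw [h2, h1, om_eq, Fin.rev_rev]
  by_cases hc : c' = c
  · rw [if_pos hc, one_smul, hc, Pi.single_eq_same]
    rfl
  · rw [if_neg hc, zero_smul, Pi.single_eq_of_ne hc]
    rfl

/-- **CORE1**, the inverse matrix. -/
theorem exists_inverse [FiniteDimensional F M] (Bf : LinearMap.BilinForm F M)
    (hB : Bf.Nondegenerate) (hs : ∀ x y, Bf x y = Bf y x)
    (hC : ∀ b i x y, Bf (C b i x) y = Bf x (C b i y))
    (hG : ∀ a c x y, Bf (G a c x) y = Bf x (Gs a c y)) (h : RelL C G)
    (hst : ∀ a c, ∀ β ∈ BB C, G a c β ∈ BB C) :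
    ∃ N : Fin 4 → Fin 4 → Module.End F (BB C),
      (∀ c c', ∑ a, GB G hst (some a) c * N a c' = if c = c' then 1 else 0) ∧
      (∀ a a', ∑ c, N a c * GB G hst (some a') c = if a = a' then 1 else 0) ∧
      ∀ a c, ∃ H : Module.End F M, ∀ b i m, N a c (CB C b i m) = CB C b i (H m) := by
  have hsur : Function.Surjective (GH G hst) := by
    rw [← LinearMap.range_eq_top, eq_top_iff]
    intro w _
    have h1 : ∀ c : Fin 4, ∀ β : BB C, (Pi.single c β : Fin 4 → BB C) ∈ range (GH G hst) := by
      intro c β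
      have h2 : (range (GH G hst)).comap (LinearMap.single F (fun _ : Fin 4 => BB C) c) = ⊤ :=
        BB_induction fun b i m => by
          rw [Submodule.mem_comap]
          exact ⟨_, GH_vec Bf hB hs hC hG h hst c b i m⟩
      have h3 : β ∈ (range (GH G hst)).comap (LinearMap.single F (fun _ : Fin 4 => BB C) c) := by
        rw [h2]; exact Submodule.mem_top
      exact h3
    have h2 : w = ∑ c, (Pi.single c (w c) : Fin 4 → BB C) := (Finset.univ_sum_single w).symm
    rw [h2]
    exact Submodule.sum_mem _ fun c _ => h1 c (w c)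
  have hinj : Function.Injective (GH G hst) := LinearMap.injective_iff_surjective.2 hsur
  let e := LinearEquiv.ofBijective (GH G hst) ⟨hinj, hsur⟩
  have he : ∀ w, GH G hst (e.symm w) = w := fun w => e.apply_symm_apply w
  have he' : ∀ w, e.symm (GH G hst w) = w := fun w => e.symm_apply_apply w
  let N : Fin 4 → Fin 4 → Module.End F (BB C) := fun a c =>
    (LinearMap.proj a).comp (e.symm.toLinearMap.comp (LinearMap.single F (fun _ => BB C) c))
  have hN : ∀ a c β, N a c β = e.symm (Pi.single c β) a := fun a c β => rfl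
  refine ⟨N, ?_, ?_, ?_⟩
  · intro c c'
    apply LinearMap.ext
    intro β
    have h1 := congrFun (he (Pi.single c' β)) c
    rw [GH_apply] at h1
    rw [LinearMap.sum_apply]
    refine h1.trans ?_
    by_cases hc : c = c'
    · rw [if_pos hc, hc, Pi.single_eq_same]; rfl
    · rw [if_neg hc, Pi.single_eq_of_ne hc]; rfl
  · intro a a'
    apply LinearMap.ext
    intro β
    have h1 : GH G hst (Pi.single a' β) = ∑ c, Pi.single c (GB G hst (some a') c β) := by
      rw [Finset.univ_sum_single fun c => GB G hst (some a') c β]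
      funext c
      rw [GH_apply, Finset.sum_eq_single a']
      · rw [Pi.single_eq_same]
      · intro b _ hb
        rw [Pi.single_eq_of_ne hb, map_zero]
      · intro h; exact absurd (Finset.mem_univ _) h
    have h2 := congrFun (he' (Pi.single a' β)) a
    rw [h1, map_sum, Finset.sum_apply] at h2
    rw [LinearMap.sum_apply]
    refine h2.trans ?_
    by_cases ha : a = a'
    · rw [if_pos ha, ha, Pi.single_eq_same]; rfl
    · rw [if_neg ha, Pi.single_eq_of_ne ha]; rfl
  · intro a c
    refine ⟨∑ a', om F a a' • Gs (some a') (Fin.rev c), fun b i m => ?_⟩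
    rw [hN, ← GH_vec Bf hB hs hC hG h hst c b i m, he']

/-- `X` commutes with the entries of an inverse matrix. -/
theorem comm_inverse {R : Type*} [Ring R] (G N : Fin 4 → Fin 4 → R)
    (h1 : ∀ c c', ∑ a, G a c * N a c' = if c = c' then 1 else 0)
    (h2 : ∀ a a', ∑ c, N a c * G a' c = if a = a' then 1 else 0) (X : R)
    (hX : ∀ a c, X * G a c = G a c * X) (a c : Fin 4) : X * N a c = N a c * X := by
  have e1 : X * N a c = ∑ a', (∑ c', N a c' * G a' c') * X * N a' c := by
    simp only [h2, ite_mul, one_mul, zero_mul, Finset.sum_ite_eq, Finset.mem_univ, if_true]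
  have e2 : N a c * X = ∑ c', N a c' * X * (∑ a', G a' c' * N a' c) := by
    simp only [h1, mul_ite, mul_one, mul_zero, Finset.sum_ite_eq', Finset.mem_univ, if_true]
  rw [e1, e2]
  simp only [Finset.sum_mul, Finset.mul_sum]
  rw [Finset.sum_comm]
  refine Finset.sum_congr rfl fun c' _ => Finset.sum_congr rfl fun a' _ => ?_
  rw [mul_assoc (N a c') (G a' c') X, ← hX a' c']
  simp only [mul_assoc]

/-- `X` commutes with the entries of a matrix if it commutes with those of the inverse. -/
theorem comm_inverse' {R : Type*} [Ring R] (G N : Fin 4 → Fin 4 → R)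
    (h1 : ∀ c c', ∑ a, G a c * N a c' = if c = c' then 1 else 0)
    (h2 : ∀ a a', ∑ c, N a c * G a' c = if a = a' then 1 else 0) (X : R)
    (hX : ∀ a c, X * N a c = N a c * X) (a c : Fin 4) : X * G a c = G a c * X := by
  refine comm_inverse (fun c a => N a c) (fun c a => G a c) ?_ ?_ X (fun c a => hX a c) c a
  · intro a a'
    exact h2 a a'
  · intro c c'
    exact h1 c c'

/-- **CORE1**: everything. -/
theorem core1 [FiniteDimensional F M] (Bf : LinearMap.BilinForm F M)
    (hB : Bf.Nondegenerate) (hs : ∀ x y, Bf x y = Bf y x)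
    (hC : ∀ b i x y, Bf (C b i x) y = Bf x (C b i y))
    (hG : ∀ a c x y, Bf (G a c x) y = Bf x (Gs a c y)) (h : RelL C G) :
    ∃ (hst : ∀ a c, ∀ β ∈ BB C, G a c β ∈ BB C) (N : Fin 4 → Fin 4 → Module.End F (BB C)),
      (∀ c c', ∑ a, GB G hst (some a) c * N a c' = if c = c' then 1 else 0) ∧
      (∀ a a', ∑ c, N a c * GB G hst (some a') c = if a = a' then 1 else 0) ∧
      (∀ (P : Module.End F (BB C)) (P' : Module.End F M),
        (∀ b i m, P (CB C b i m) = CB C b i (P' m)) →
        (∀ a c, P * GB G hst a c = GB G hst a c * P) ∧ ∀ a c, P * N a c = N a c * P) ∧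
      (∀ a c a' c', GB G hst (some a) c * GB G hst a' c' = GB G hst a' c' * GB G hst (some a) c) ∧
      (∀ a c a' c', GB G hst a c * N a' c' = N a' c' * GB G hst a c) ∧
      (∀ a c a' c', N a c * N a' c' = N a' c' * N a c) := by
  have hst := stable Bf hB hs hC h
  have hsur := EB_surj Bf hB hs hC h
  obtain ⟨N, h1, h2, h3⟩ := exists_inverse Bf hB hs hC hG h hst
  have hNG : ∀ a c a' c', N a c * GB G hst a' c' = GB G hst a' c' * N a c := by
    intro a c a' c'
    obtain ⟨H, hH⟩ := h3 a c
    exact central hsur h hst (N a c) H hH a' c'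
  have hNN : ∀ a c a' c', N a c * N a' c' = N a' c' * N a c := by
    intro a c a' c'
    exact comm_inverse (fun a c => GB G hst (some a) c) N h1 h2 (N a c)
      (fun a' c' => hNG a c (some a') c') a' c'
  have hGG : ∀ a c a' c', GB G hst (some a) c * GB G hst a' c' =
      GB G hst a' c' * GB G hst (some a) c := by
    intro a c a' c'
    have := comm_inverse' (fun a c => GB G hst (some a) c) N h1 h2 (GB G hst a' c')
      (fun a c => (hNG a c a' c').symm) a c
    exact this.symm
  refine ⟨hst, N, h1, h2, ?_, hGG, fun a c a' c' => (hNG a' c' a c).symm, hNN⟩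
  intro P P' hP
  have hc : ∀ a c, P * GB G hst a c = GB G hst a c * P := fun a c => central hsur h hst P P' hP a c
  exact ⟨hc, fun a c => comm_inverse (fun a c => GB G hst (some a) c) N h1 h2 P
    (fun a c => hc (some a) c) a c⟩

end core

end Pool.OVO14
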