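import Mathlib

/-!
# Ovoids of PG(3,2^h), structure constants (MP_c637b9_co)

The basis `x, s, t, f` of the symplectic space is numbered `0, 1, 2, 3`, `ω(e_i, e_{3-i}) = 1`.
The basis `xs, xt, sf, tf` is numbered `0, 1, 2, 3`.
-/

set_option autoImplicit false

namespace Pool.OVO14

open Matrix

/-- The entries of the matrices `1, j_xs, j_xt, j_sf, j_tf`, modulo 2. -/
def jb : Option (Fin 4) → Fin 4 → Fin 4 → ZMod 2
  | none => fun l i => if l = i then 1 else 0
  | some 0 => fun l i => if (l = 1 ∧ i = 3) ∨ (l = 0 ∧ i = 2) then 1 else 0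
  | some 1 => fun l i => if (l = 2 ∧ i = 3) ∨ (l = 0 ∧ i = 1) then 1 else 0
  | some 2 => fun l i => if (l = 3 ∧ i = 2) ∨ (l = 1 ∧ i = 0) then 1 else 0
  | some 3 => fun l i => if (l = 3 ∧ i = 1) ∨ (l = 2 ∧ i = 0) then 1 else 0

/-- The entries of the Clifford matrices, modulo 2. -/
def gmb (c b b' : Fin 4) : ZMod 2 :=
  if (c = 1 ∧ b = 0 ∧ b' = 1) ∨ (c = 0 ∧ b = 0 ∧ b' = 2) ∨ (c = 2 ∧ b = 1 ∧ b' = 0) ∨
    (c = 0 ∧ b = 1 ∧ b' = 3) ∨ (c = 3 ∧ b = 2 ∧ b' = 0) ∨ (c = 1 ∧ b = 2 ∧ b' = 3) ∨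
    (c = 3 ∧ b = 3 ∧ b' = 1) ∨ (c = 2 ∧ b = 3 ∧ b' = 2) then 1 else 0

/-- The symplectic form on the basis vectors; also the form `g` on `xs, xt, sf, tf`. -/
def omb (c d : Fin 4) : ZMod 2 := if c = Fin.rev d then 1 else 0

/-- The form `g`, extended by `0`. -/
def ggb : Option (Fin 4) → Option (Fin 4) → ZMod 2
  | some a, some a' => omb a a'
  | _, _ => 0

/-- The position of an entry of `jb a` which is zero for the other matrices. -/
def pos : Option (Fin 4) → Fin 4 × Fin 4
  | none => (0, 0)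
  | some 0 => (0, 2)
  | some 1 => (0, 1)
  | some 2 => (1, 0)
  | some 3 => (2, 0)

theorem jb_none (l i : Fin 4) : jb none l i = if l = i then 1 else 0 := rfl

theorem jb_pos (a a' : Option (Fin 4)) :
    jb a (pos a').1 (pos a').2 = if a = a' then 1 else 0 := by
  revert a a'; decide

theorem jb_clifford (a a' : Option (Fin 4)) (l i : Fin 4) :
    (∑ m, jb a l m * jb a' m i) + (∑ m, jb a' l m * jb a m i) =
      ggb a a' * (if l = i then 1 else 0) := by
  revert a a' l i; decide

theorem gmb_clifford (c d b b' : Fin 4) :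
    (∑ m, gmb c b m * gmb d m b') + (∑ m, gmb d b m * gmb c m b') =
      omb c d * (if b = b' then 1 else 0) := by
  revert c d b b'; decide

section F

variable (F : Type*) [Field F] [CharP F 2]

/-- Entries in `F`. -/
def cs (z : ZMod 2) : F := ZMod.castHom (dvd_refl 2) F z

/-- `J a l i` is the entry of the matrix `j_a` at row `l`, column `i`. -/
def J (a : Option (Fin 4)) (l i : Fin 4) : F := ZMod.castHom (dvd_refl 2) F (jb a l i)

/-- The Clifford matrices. -/
def gam (c b b' : Fin 4) : F := ZMod.castHom (dvd_refl 2) F (gmb c b b')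

/-- The symplectic form on basis vectors. -/
def om (c d : Fin 4) : F := ZMod.castHom (dvd_refl 2) F (omb c d)

/-- The form `g`. -/
def gg (a a' : Option (Fin 4)) : F := ZMod.castHom (dvd_refl 2) F (ggb a a')

variable {F}

theorem om_eq (c d : Fin 4) : om F c d = if c = Fin.rev d then 1 else 0 := by
  unfold om omb
  split_ifs <;> simp

theorem gg_some (a a' : Fin 4) : gg F (some a) (some a') = om F a a' := rfl

theorem gg_none_left (a : Option (Fin 4)) : gg F none a = 0 := by
  cases a <;> simp [gg, ggb]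

theorem gg_none_right (a : Option (Fin 4)) : gg F a none = 0 := by
  cases a <;> simp [gg, ggb]

theorem J_none (l i : Fin 4) : J F none l i = if l = i then 1 else 0 := by
  unfold J
  rw [jb_none]
  split_ifs <;> simp

theorem J_pos (a a' : Option (Fin 4)) :
    J F a (pos a').1 (pos a').2 = if a = a' then 1 else 0 := by
  unfold J
  rw [jb_pos]
  split_ifs <;> simp

theorem J_clifford (a a' : Option (Fin 4)) (l i : Fin 4) :
    (∑ m, J F a l m * J F a' m i) + (∑ m, J F a' l m * J F a m i) =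
      gg F a a' * (if l = i then 1 else 0) := by
  have h := congrArg (ZMod.castHom (dvd_refl 2) F) (jb_clifford a a' l i)
  rw [map_add, map_sum, map_sum, map_mul] at h
  simp only [map_mul] at h
  rw [show (ZMod.castHom (dvd_refl 2) F) (if l = i then (1 : ZMod 2) else 0) =
    (if l = i then (1 : F) else 0) by split_ifs <;> simp] at h
  exact h

theorem gam_clifford (c d b b' : Fin 4) :
    (∑ m, gam F c b m * gam F d m b') + (∑ m, gam F d b m * gam F c m b') =
      om F c d * (if b = b' then 1 else 0) := by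
  have h := congrArg (ZMod.castHom (dvd_refl 2) F) (gmb_clifford c d b b')
  rw [map_add, map_sum, map_sum, map_mul] at h
  simp only [map_mul] at h
  rw [show (ZMod.castHom (dvd_refl 2) F) (if b = b' then (1 : ZMod 2) else 0) =
    (if b = b' then (1 : F) else 0) by split_ifs <;> simp] at h
  exact h

end F

/-- `gam` in closed form. -/
theorem gam_eq {F : Type*} [Field F] [CharP F 2] (c b b' : Fin 4) : gam F c b b' =
    if (c = 1 ∧ b = 0 ∧ b' = 1) ∨ (c = 0 ∧ b = 0 ∧ b' = 2) ∨ (c = 2 ∧ b = 1 ∧ b' = 0) ∨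
    (c = 0 ∧ b = 1 ∧ b' = 3) ∨ (c = 3 ∧ b = 2 ∧ b' = 0) ∨ (c = 1 ∧ b = 2 ∧ b' = 3) ∨
    (c = 3 ∧ b = 3 ∧ b' = 1) ∨ (c = 2 ∧ b = 3 ∧ b' = 2) then 1 else 0 := by
  unfold gam gmb
  split_ifs <;> simp

end Pool.OVO14
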